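import Mathlib
import Pool.Agent.Zk93.CL.Main
import Pool.Agent.Zk93.CL.Gold
import Pool.Agent.Zk93.CL.Third

/-!
# The set of the numbers with exactly countably infinitely many representations (Q2)

`x` is a summable sequence of positive reals, `cardFun x t` is the number of 0-1 sequences `ε` with
`∑ ε n x n = t`, and `levelSet x ℵ₀` is the set `L_ω(x)` of the numbers `t` with exactly `ℵ₀`
representations (definitions of the starting file `ContinuumLevel`, which settles Q1, the case of
`𝔠` representations).

Q2 asks whether `L_ω(x)` is always empty or contains a Cantor set. The answer is no, and we determine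
what is true: `L_ω(x)` is empty, or countably infinite, or contains a Cantor set, and the three cases
occur. If it is not empty then `0` and `∑ x n` are accumulation points of `L_ω(x)`; so it is never
finite and nonempty.

Idea. Let `x` be nonincreasing. If `t` has countably infinitely many representations, these form a
countable compact set, and after finitely many digits there is a representation `ε` which is the only
accumulation point of the others; the set `Z` of these `ε` is Borel and `ε ↦ ∑ ε n x n` is injective
on it. Let `t m` be the rest of `t` after `m` digits of `ε` and `r m` the sum of the terms from `m` on.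
If `x (m-1) ≤ t m ≤ r m - x (m-1)` for all large `m`, then `r m ≥ 2 x (m-1)` for all large `m`, and
all interior numbers have continuum many representations (remove a sparse set of terms, use
Kakeya's theorem for the others). So `t m < x (m-1)` or `r m - t m < x (m-1)` for infinitely
many `m`, and a number less than `x (m-1)` has the same representations for `x` as for the tail from
`m` on. This gives small members of `L_ω(x)`, and if `L_ω(x)` is uncountable, then one of the Borel
sets of the `ε` in `Z` of a tail with small value is uncountable, and its image contains a Cantor set.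

Examples: for `x n = φ ^ (- n - 1)`, `φ` the golden ratio, `L_ω(x)` is contained in `ℤ + ℤ φ` and
contains `1`; for the sequence `1/100, 99/100, 10/100, 1/100², 99/100², 10/100², ...` it contains the
numbers `∑ (1 + 10 ν j) 100 ^ (- j - 1)`, `ν j ∈ {0, 1}`.
-/

set_option autoImplicit false

open Set Filter Topology
open Pool.Agent.Results.MP_c42e77_an.ContinuumLevel (subsum cardFun levelSet)

namespace Pool.Agent.Results.MP_c42e77_an.CountableLevel

open Pool.Agent.Zk93.CL

lemma not_countable_of_cantor {L : Set ℝ} (hL : L.Countable) :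
    ¬ ∃ C : Set ℝ, C ⊆ L ∧ Nonempty (C ≃ₜ cantorSet) := by
  rintro ⟨C, hC, ⟨e⟩⟩
  have h5 : Cardinal.mk (ℕ → Bool) = Cardinal.continuum := by simp
  have h1 : Countable C := (hL.mono hC).to_subtype
  have h2 : Countable cantorSet := e.symm.injective.countable
  have h3 : Countable (ℕ → Bool) := cantorSetHomeomorphNatToBool.symm.injective.countable
  have h4 : Cardinal.mk (ℕ → Bool) ≤ Cardinal.aleph0 := Cardinal.mk_le_aleph0_iff.2 h3
  rw [h5] at h4
  exact absurd Cardinal.aleph0_lt_continuum (not_lt.2 h4)

/-- (1) For every summable sequence `x` of positive reals `L_ω(x)` is empty, or it is infinite with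
accumulation points `0` and `∑ x n` and either countable or containing a Cantor set. (2) For
`x n = φ ^ (- n - 1)`, `φ` the golden ratio, `L_ω(x)` is nonempty and countable, so it contains no
Cantor set: Q2 is false. (3) For some `x`, `L_ω(x)` contains a Cantor set. -/
theorem result :
    (∀ x : ℕ → ℝ, (∀ n, 0 < x n) → Summable x →
      levelSet x Cardinal.aleph0 = ∅ ∨
      ((levelSet x Cardinal.aleph0).Infinite ∧
        (∀ δ : ℝ, 0 < δ → ∃ t ∈ levelSet x Cardinal.aleph0, 0 < t ∧ t < δ) ∧
        (∀ δ : ℝ, 0 < δ → ∃ t ∈ levelSet x Cardinal.aleph0, ∑' n, x n - δ < t ∧ t < ∑' n, x n) ∧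
        ((levelSet x Cardinal.aleph0).Countable ∨
          ∃ C : Set ℝ, C ⊆ levelSet x Cardinal.aleph0 ∧ Nonempty (C ≃ₜ cantorSet)))) ∧
    ((∀ n : ℕ, 0 < Real.goldenRatio⁻¹ ^ (n + 1)) ∧
      Summable (fun n : ℕ => Real.goldenRatio⁻¹ ^ (n + 1)) ∧
      (levelSet (fun n : ℕ => Real.goldenRatio⁻¹ ^ (n + 1)) Cardinal.aleph0).Nonempty ∧
      (levelSet (fun n : ℕ => Real.goldenRatio⁻¹ ^ (n + 1)) Cardinal.aleph0).Countable ∧
      ¬ ∃ C : Set ℝ, C ⊆ levelSet (fun n : ℕ => Real.goldenRatio⁻¹ ^ (n + 1)) Cardinal.aleph0 ∧
        Nonempty (C ≃ₜ cantorSet)) ∧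
    (∃ x : ℕ → ℝ, (∀ n, 0 < x n) ∧ Summable x ∧
      ∃ C : Set ℝ, C ⊆ levelSet x Cardinal.aleph0 ∧ Nonempty (C ≃ₜ cantorSet)) := by
  refine ⟨?_, ⟨gx_pos, gx_summable, ⟨1, one_mem⟩, level_countable,
    not_countable_of_cantor level_countable⟩,
    hx, hx_pos, hx_summable, (tri hx_pos hx_summable).2 hx_uncountable⟩
  intro x h0 hs
  rcases Set.eq_empty_or_nonempty (levelSet x Cardinal.aleph0) with he | hne
  · exact Or.inl he
  · right
    obtain ⟨h1, h2⟩ := tri h0 hs
    have h3 := h1 hne
    refine ⟨?_, h3, ?_, ?_⟩
    · intro hfin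
      obtain ⟨t0, ht0, h5⟩ := Set.exists_min_image _ id hfin hne
      obtain ⟨t, ht, h6, h7⟩ := h3 t0 (zero_notMem h0 hs ht0).1
      exact absurd (h5 t ht) (not_le.2 h7)
    · intro δ hδ
      obtain ⟨t, ht, h6, h7⟩ := h3 δ hδ
      exact ⟨∑' n, x n - t, level_co h0 hs ht, by linarith, by linarith⟩
    · by_cases hc : (levelSet x Cardinal.aleph0).Countable
      · exact Or.inl hc
      · exact Or.inr (h2 hc)

end Pool.Agent.Results.MP_c42e77_an.CountableLevel
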